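import Mathlib

set_option autoImplicit false

namespace Pool.Agent.Work.MP_dc63d3_gt

/-- `σ` is a conical geodesic bicombing: `σ x y` is a constant speed geodesic from `x` to `y` on
`[0, 1]`, and the conical inequality holds. -/
def IsConical {X : Type} [MetricSpace X] (σ : X → X → ℝ → X) : Prop :=
  (∀ x y, σ x y 0 = x ∧ σ x y 1 = y) ∧
  (∀ x y, ∀ s ∈ Set.Icc (0 : ℝ) 1, ∀ t ∈ Set.Icc (0 : ℝ) 1,
    dist (σ x y s) (σ x y t) = |s - t| * dist x y) ∧
  ∀ x y x' y', ∀ t ∈ Set.Icc (0 : ℝ) 1,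
    dist (σ x y t) (σ x' y' t) ≤ (1 - t) * dist x x' + t * dist y y'

/-- Every finite set lies in a complete set that contains the chosen geodesics between its
points. -/
def HullsComplete {X : Type} [MetricSpace X] (σ : X → X → ℝ → X) : Prop :=
  ∀ s : Finset X, ∃ K : Set X, IsComplete K ∧ (s : Set X) ⊆ K ∧
    ∀ x ∈ K, ∀ y ∈ K, ∀ t ∈ Set.Icc (0 : ℝ) 1, σ x y t ∈ K

end Pool.Agent.Work.MP_dc63d3_gt
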