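import Pool.Agent.Work.MP_dc63d3_gt.Lower
import Pool.Agent.Work.MP_dc63d3_gt.B.Defs

/-!
The linear lower bound on a segment, hence in every space that contains a geodesic.
-/

set_option autoImplicit false

noncomputable section

namespace Pool.Agent.Work.MP_dc63d3_gt

open Finset

lemma line_base {k m c : ℕ} (hc : c < k) (hm : 1 ≤ m) {y : ℤ} (h1 : -(3 * m) ≤ y) (h2 : y ≤ 3 * m) :
    ps k (20 * m) c y ≠ ps k (20 * m) 0 (10 * m) := fun e => by
  have := (ps_inj hc (by omega) (abs_lt.2 ⟨by push_cast; omega, by push_cast; omega⟩) e).2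
  omega

lemma line_lab {k m : ℕ} (hm : 1 ≤ m) (A : Finset (ZMod (k * (20 * m)))) :
    lab m (A.erase (ps k (20 * m) 0 (10 * m))) = lab m A := by
  have a : ∀ j < k, ∀ u, Pl m j u ∨ Mi m j u → u ≠ ps k (20 * m) 0 (10 * m) := by
    rintro j hj u (⟨y, b1, b2, rfl⟩ | ⟨y, b1, b2, rfl⟩)
    · exact line_base hj hm (by omega) (by omega)
    · exact line_base hj hm (by omega) (by omega)
  have b : ∀ c ≤ k, lab m (A.erase (ps k (20 * m) 0 (10 * m))) = c ↔ lab m A = c := by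
    intro c hc
    rw [lab_iff hc, lab_iff hc]
    refine and_congr (forall₂_congr fun j hj => ⟨?_, ?_⟩) (and_congr ⟨?_, ?_⟩
      (forall₂_congr fun i hi => ⟨?_, ?_⟩))
    · exact fun ⟨u, hu, e⟩ => ⟨u, mem_of_mem_erase hu, e⟩
    · exact fun ⟨u, hu, e⟩ => ⟨u, mem_erase.2 ⟨a j hj u e, hu⟩, e⟩
    · exact Or.imp_right fun ⟨u, hu, e⟩ => ⟨u, mem_of_mem_erase hu, e⟩
    · rintro (e | ⟨u, hu, e⟩)
      · exact Or.inl e
      · rcases hc.eq_or_lt with d | d
        · exact Or.inl d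
        · exact Or.inr ⟨u, mem_erase.2 ⟨a c d u (Or.inr e), hu⟩, e⟩
    · exact fun h u hu e => h u (mem_erase.2 ⟨a i (by omega) u (Or.inr e), hu⟩) e
    · exact fun h u hu => h u (mem_of_mem_erase hu)
  by_cases c : lab m A ≤ k
  · exact (b _ c).2 rfl
  · have d := lab_le (m := m) A
    have e := lab_le (m := m) (A.erase (ps k (20 * m) 0 (10 * m)))
    by_contra f
    have := (b _ (by omega)).1 rfl
    omega

lemma line_no_full {k m : ℕ} (hm : 1 ≤ m) {F : ℕ → Finset (ZMod (k * (20 * m)))}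
    (h1 : ∀ j, ((F j).erase (ps k (20 * m) 0 (10 * m))).card ≤ k)
    (h2 : ∀ i j, Close m (F i) (F j)) : ¬ ∀ c ≤ k + 1, ∃ j ≤ k + 1, lab m (F j) = c := by
  intro h
  obtain ⟨a, -, ha⟩ := h (k + 1) le_rfl
  obtain ⟨b, -, hb⟩ := h k k.le_succ
  have : In m (F a) := by
    intro c hc
    obtain ⟨j, -, hj⟩ := h c (by omega)
    obtain ⟨u, hu, y, a1, a2, rfl⟩ := ((lab_iff hc.le).1 hj).2.1.resolve_left hc.ne
    obtain ⟨u', hu', z, b1, rfl⟩ := h2 j b _ hu
    rw [abs_le] at b1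
    obtain ⟨i, hi, y', c1, c2, c3⟩ := all_plus (by omega) (h1 b) ((line_lab hm _).trans hb) _
      (mem_erase.2 ⟨by rw [ps_add]; exact line_base hc hm (by omega) (by omega), hu'⟩)
    obtain ⟨u'', hu'', z', d1, rfl⟩ := h2 b a _ hu'
    rw [abs_le] at d1
    rw [ps_add] at c3
    obtain ⟨-, e⟩ := ps_inj hc hi (abs_lt.2 ⟨by push_cast; omega, by push_cast; omega⟩) c3
    refine ⟨_, hu'', ?_⟩
    rw [ps_add, ps_add]
    rcases le_or_gt (y + z + z') 0 with f | f
    · exact Or.inr ⟨_, by omega, f, rfl⟩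
    · exact Or.inl ⟨_, f, by omega, rfl⟩
  have := lab_le_of_in this
  omega

/-- Pointed version of `no_retr`: the base point is `ps k (20 m) 0 (10 m)`. -/
theorem no_retr_pt {k m : ℕ} (hk : Odd k) (hm : 1 ≤ m)
    (R : Finset (ZMod (k * (20 * m))) → Finset (ZMod (k * (20 * m))))
    (h1 : ∀ (p : Fin (k + 1) → ZMod (k * (20 * m))) j,
      ((R (Vx p j)).erase (ps k (20 * m) 0 (10 * m))).card ≤ k)
    (h2 : ∀ (q : Fin k → ZMod (k * (20 * m))) j,
      R (Vx q j) = insert (ps k (20 * m) 0 (10 * m)) (Vx q j))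
    (h3 : ∀ (p : Fin (k + 1) → ZMod (k * (20 * m))) i j, Close m (R (Vx p i)) (R (Vx p j))) :
    False := by
  classical
  have : NeZero (k * (20 * m)) := ⟨Nat.mul_ne_zero hk.pos.ne' (by omega)⟩
  have a := door_count (k := k) (fun A => lab m (R A)) (fun _ => lab_le _)
    (fun p => line_no_full hm (h1 p) (h3 p))
  have c : ∀ A : Finset (ZMod (k * (20 * m))),
      lab m (insert (ps k (20 * m) 0 (10 * m)) A) = lab m A := fun A => by
    rw [← line_lab hm, erase_insert_eq_erase, line_lab hm]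
  have b : ∀ q : Fin k → ZMod (k * (20 * m)), ind (Full (fun A => lab m (R A)) q) =
      if q = fun c : Fin k => ps k (20 * m) c 0 then 1 else 0 := by
    intro q
    unfold ind Full
    simp only [h2, c, full_iff hm (show 5 * m < 20 * m by omega)]
  simp only [b, sum_ite_eq', mem_univ, if_true, mul_one] at a
  rw [ZMod.natCast_eq_zero_iff] at a
  obtain ⟨c, rfl⟩ := hk
  omega

/-- The position on the unit interval, counted from the base point. -/
def lpos {N : ℕ} (b u : ZMod N) : ℝ := ((u - b).val : ℝ) / N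

lemma lpos_mem {N : ℕ} [NeZero N] (b u : ZMod N) : 0 ≤ lpos b u ∧ lpos b u ≤ 1 := by
  have hN : (0 : ℝ) < N := by exact_mod_cast Nat.pos_of_ne_zero (NeZero.ne N)
  refine ⟨by unfold lpos; positivity, (div_le_one hN).2 ?_⟩
  exact_mod_cast (ZMod.val_lt _).le

lemma lpos_step {N : ℕ} [NeZero N] (b v : ZMod N) (z : ℤ) {β : ℝ} (h : |(z : ℝ)| ≤ β) :
    dist (lpos b (v + z)) (lpos b v) ≤ β / N ∨ dist (lpos b (v + z)) 0 ≤ β / N ∨
      dist (lpos b (v + z)) 1 ≤ β / N := by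
  have hN : (0 : ℝ) < N := by exact_mod_cast Nat.pos_of_ne_zero (NeZero.ne N)
  have e : (((((v - b).val : ℤ) + z : ℤ)) : ZMod N) = (((v + z - b).val : ℤ) : ZMod N) := by
    push_cast
    rw [ZMod.natCast_zmod_val, ZMod.natCast_zmod_val]
    ring
  obtain ⟨l, hl⟩ := (ZMod.intCast_eq_intCast_iff_dvd_sub _ _ _).1 e
  have a1 : ((v + z - b).val : ℝ) < N := by exact_mod_cast ZMod.val_lt _
  have a2 : ((v - b).val : ℝ) < N := by exact_mod_cast ZMod.val_lt _
  have a3 : (0 : ℝ) ≤ ((v + z - b).val : ℝ) := Nat.cast_nonneg _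
  have a4 : (0 : ℝ) ≤ ((v - b).val : ℝ) := Nat.cast_nonneg _
  have hl' : ((v + z - b).val : ℝ) - (((v - b).val : ℝ) + z) = N * l := by exact_mod_cast hl
  rw [abs_le] at h
  unfold lpos
  generalize ((v + z - b).val : ℝ) = x at *
  generalize ((v - b).val : ℝ) = y at *
  have key : ∀ t : ℝ, |x - t| ≤ β → dist (x / N) (t / N) ≤ β / N := fun t ht => by
    rw [Real.dist_eq, ← sub_div, abs_div, abs_of_pos hN]
    exact div_le_div_of_nonneg_right ht hN.le
  rcases lt_trichotomy l 0 with c | c | c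
  · have d : (l : ℝ) ≤ -1 := by exact_mod_cast (by omega : l ≤ -1)
    have := key 0 (abs_le.2 ⟨by linarith, by nlinarith⟩)
    rw [zero_div] at this
    exact Or.inr (Or.inl this)
  · rw [c, Int.cast_zero, mul_zero] at hl'
    exact Or.inl (key y (abs_le.2 ⟨by linarith, by linarith⟩))
  · have d : (1 : ℝ) ≤ l := by exact_mod_cast (by omega : 1 ≤ l)
    have := key N (abs_le.2 ⟨by nlinarith, by linarith⟩)
    rw [div_self hN.ne'] at this
    exact Or.inr (Or.inr this)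

lemma near_lpos {N : ℕ} [NeZero N] (b : ZMod N) {A B : Finset (ZMod N)} (G : Finset ℝ)
    (g0 : 0 ∈ G) (g1 : 1 ∈ G) {β : ℝ} (hb : 0 ≤ β)
    (h : ∀ u ∈ A, ∃ v ∈ B, ∃ z : ℤ, |(z : ℝ)| ≤ β ∧ u = v + z)
    (h' : ∀ u ∈ B, ∃ v ∈ A, ∃ z : ℤ, |(z : ℝ)| ≤ β ∧ u = v + z) :
    Near (A.image (lpos b) ∪ G) (B.image (lpos b) ∪ G) (β / N) := by
  have key : ∀ A B : Finset (ZMod N), (∀ u ∈ A, ∃ v ∈ B, ∃ z : ℤ, |(z : ℝ)| ≤ β ∧ u = v + z) →
      ∀ x ∈ A.image (lpos b) ∪ G, ∃ y ∈ B.image (lpos b) ∪ G, dist x y ≤ β / N := by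
    intro A B h x hx
    rcases mem_union.1 hx with hx | hx
    · obtain ⟨u, hu, rfl⟩ := mem_image.1 hx
      obtain ⟨v, hv, z, a, rfl⟩ := h u hu
      rcases lpos_step b v z a with c | c | c
      · exact ⟨_, mem_union_left _ (mem_image_of_mem _ hv), c⟩
      · exact ⟨_, mem_union_right _ g0, c⟩
      · exact ⟨_, mem_union_right _ g1, c⟩
    · exact ⟨x, mem_union_right _ hx, by rw [dist_self]; positivity⟩
  exact ⟨key A B h, key B A h'⟩

lemma line_ratio {z lo hi z' lo' hi' e : ℝ} (h1 : lo ≤ z) (h2 : z ≤ hi) (h3 : 1 / 2 ≤ hi - lo)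
    (h4 : 1 / 2 ≤ hi' - lo') (a : |z' - z| ≤ e) (b : |lo' - lo| ≤ e) (c : |hi' - hi| ≤ e) :
    |(z' - lo') / (hi' - lo') - (z - lo) / (hi - lo)| ≤ 8 * e := by
  obtain ⟨t, ht⟩ : ∃ t, t = (z - lo) / (hi - lo) := ⟨_, rfl⟩
  have t0 : 0 ≤ t := ht ▸ div_nonneg (by linarith) (by linarith)
  have t1 : t ≤ 1 := ht ▸ (div_le_one (by linarith)).2 (by linarith)
  have t2 : t * (hi - lo) = z - lo := ht ▸ div_mul_cancel₀ _ (by linarith)
  have e0 : 0 ≤ e := (abs_nonneg _).trans a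
  rw [abs_le] at a b c
  have p1 : t * ((hi' - lo') - (hi - lo)) ≤ 1 * (2 * e) :=
    (mul_le_mul_of_nonneg_left (by linarith) t0).trans
      (mul_le_mul_of_nonneg_right t1 (by linarith))
  have p2 : t * ((hi - lo) - (hi' - lo')) ≤ 1 * (2 * e) :=
    (mul_le_mul_of_nonneg_left (by linarith) t0).trans
      (mul_le_mul_of_nonneg_right t1 (by linarith))
  have p3 : e * (1 / 2) ≤ e * (hi' - lo') := mul_le_mul_of_nonneg_left h4 e0
  rw [← ht, abs_le, le_sub_iff_add_le, sub_le_iff_le_add, le_div_iff₀ (by linarith),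
    div_le_iff₀ (by linarith)]
  constructor <;> nlinarith

lemma line_round {x y : ℝ} {m : ℕ} (h : |x - y| + 1 ≤ m) : |round x - round y| ≤ (m : ℤ) := by
  have b1 := abs_le.1 (abs_sub_round x)
  have b2 := abs_le.1 (abs_sub_round y)
  have b3 := le_abs_self (x - y)
  have b4 := neg_abs_le (x - y)
  rw [← Int.cast_le (R := ℝ)]
  push_cast
  rw [abs_le]
  constructor <;> linarith [b1.1, b1.2, b2.1, b2.2]

theorem line {k : ℕ} (hk : Odd k) (F : Finset ℝ) (hF : ∀ z ∈ F, z = 3) {L : ℝ} (hL : 0 ≤ L)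
    {r : Finset ℝ → Finset ℝ}
    (h1 : ∀ s : Finset ℝ, s.Nonempty → s.card ≤ k + 3 + F.card → (r s).card ≤ k + 2 + F.card)
    (h2 : ∀ s : Finset ℝ, s.Nonempty → s.card ≤ k + 2 + F.card → (∀ z ∈ s, 0 ≤ z ∧ z ≤ 3) →
      r s = s)
    (h3 : ∀ (s t : Finset ℝ) (d : ℝ), s.Nonempty → s.card ≤ k + 3 + F.card → t.Nonempty →
      t.card ≤ k + 3 + F.card → 0 ≤ d → Near s t d → Near (r s) (r t) (L * d))
    (hk' : 4 * (L + 1) ≤ k) : False := by
  classical
  have k1 : (1 : ℝ) ≤ k := by exact_mod_cast hk.pos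
  obtain ⟨m, hm⟩ := exists_nat_ge (8 * L + 1)
  have m1 : (1 : ℝ) ≤ m := by linarith
  have m2 : 1 ≤ m := by exact_mod_cast m1
  have : NeZero (k * (20 * m)) := ⟨Nat.mul_ne_zero hk.pos.ne' (by omega)⟩
  obtain ⟨b, hb⟩ : ∃ b, b = ps k (20 * m) 0 (10 * m) := ⟨_, rfl⟩
  obtain ⟨ν, hν⟩ : ∃ ν : ℝ, ν = ((k * (20 * m) : ℕ) : ℝ) := ⟨_, rfl⟩
  have ν1 : 20 * (m : ℝ) ≤ ν := by
    rw [hν]
    push_cast
    nlinarith
  have ν0 : 0 < ν := by linarith
  obtain ⟨G, hG⟩ : ∃ G : Finset ℝ, G = insert 0 (insert 1 F) := ⟨_, rfl⟩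
  have g0 : (0 : ℝ) ∈ G := by simp [hG]
  have g1 : (1 : ℝ) ∈ G := by simp [hG]
  have gc : G.card ≤ F.card + 2 :=
    hG ▸ (card_insert_le _ _).trans (Nat.add_le_add_right (card_insert_le _ _) 1)
  obtain ⟨S, hS⟩ : ∃ S : Finset (ZMod (k * (20 * m))) → Finset ℝ,
      ∀ A, S A = A.image (lpos b) ∪ G := ⟨_, fun _ => rfl⟩
  have S0 : ∀ A, ∀ y ∈ S A, (0 ≤ y ∧ y ≤ 1) ∨ y = 3 := by
    intro A y hy
    rw [hS, mem_union, hG, mem_insert, mem_insert] at hy
    rcases hy with a | rfl | rfl | a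
    · obtain ⟨u, -, rfl⟩ := mem_image.1 a
      exact Or.inl (lpos_mem b u)
    · exact Or.inl (by norm_num)
    · exact Or.inl (by norm_num)
    · exact Or.inr (hF y a)
  have S1 : ∀ A, (S A).card ≤ A.card + 2 + F.card := fun A => by
    have a := card_union_le (A.image (lpos b)) G
    have c := card_image_le (s := A) (f := lpos b)
    rw [hS]
    omega
  have Sg : ∀ A, ∀ y ∈ G, y ∈ S A := fun A y hy => hS A ▸ mem_union_right _ hy
  have S2 : ∀ A, (S A).Nonempty := fun A => ⟨0, Sg A 0 g0⟩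
  have S3 : ∀ A, A.card ≤ k → r (S A) = S A := fun A a =>
    h2 _ (S2 A) (by have := S1 A; omega) fun z hz => by
      rcases S0 A z hz with c | c <;> constructor <;> linarith [c]
  have N1 : ∀ A, A.card ≤ k + 1 → Near (r (S A)) (S A) (1 / 4) := by
    intro A a
    by_cases c : A.card ≤ k
    · rw [S3 A c]
      exact near_refl _ (by norm_num)
    · obtain ⟨u, hu, v, hv, a', z, b', e⟩ := two_close (not_le.1 c)
      have hv' : v ∈ A.erase u := mem_erase.2 ⟨a'.symm, hv⟩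
      have c1 : (A.erase u).card ≤ k := by rw [card_erase_of_mem hu]; omega
      have c2 : Near (S A) (S (A.erase u)) (((20 * m : ℕ) : ℝ) / (k * (20 * m) : ℕ)) := by
        rw [hS, hS]
        refine near_lpos b G g0 g1 (by positivity) (fun w hw => ?_)
          (fun w hw => ⟨w, mem_of_mem_erase hw, 0, by simp, by simp⟩)
        by_cases d : w = u
        · exact ⟨v, hv', z, b', d ▸ e⟩
        · exact ⟨w, mem_erase.2 ⟨d, hw⟩, 0, by simp, by simp⟩
      have c3 : ((20 * m : ℕ) : ℝ) / (k * (20 * m) : ℕ) = 1 / k := by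
        push_cast
        field_simp
      rw [c3] at c2
      have c4 := h3 _ _ _ (S2 A) (by have := S1 A; omega) (S2 _)
        (by have := S1 (A.erase u); omega) (by positivity) c2
      rw [S3 _ c1] at c4
      refine (c4.trans c2.symm).mono ?_
      rw [← add_one_mul, mul_one_div, div_le_iff₀ (by linarith)]
      linarith
  have N2 : ∀ A, A.card ≤ k + 1 → ∀ z ∈ r (S A), z ≤ 5 / 2 → z ≤ 5 / 4 := by
    intro A a z hz hz'
    obtain ⟨y, hy, c⟩ := (N1 A a).1 z hz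
    rw [Real.dist_eq, abs_le] at c
    rcases S0 A y hy with d | d <;> linarith [d, c.1, c.2]
  obtain ⟨P, hP⟩ : ∃ P : Finset (ZMod (k * (20 * m))) → Finset ℝ,
      ∀ A, P A = (r (S A)).filter (fun z => z ≤ 2) := ⟨_, fun _ => rfl⟩
  have mP : ∀ A z, z ∈ P A ↔ z ∈ r (S A) ∧ z ≤ 2 := fun A z => by rw [hP, mem_filter]
  have ex : ∀ A : Finset (ZMod (k * (20 * m))), ∃ lo hi : ℝ, A.card ≤ k + 1 →
      lo ∈ P A ∧ hi ∈ P A ∧ (∀ z ∈ P A, lo ≤ z ∧ z ≤ hi) ∧ lo ≤ 1 / 4 ∧ 3 / 4 ≤ hi := by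
    intro A
    by_cases a : A.card ≤ k + 1
    swap
    · exact ⟨0, 0, fun c => absurd c a⟩
    obtain ⟨z0, a0, c0⟩ := (N1 A a).2 0 (Sg A 0 g0)
    obtain ⟨z1, a1, c1⟩ := (N1 A a).2 1 (Sg A 1 g1)
    rw [Real.dist_eq, abs_le] at c0 c1
    have p0 : z0 ∈ P A := (mP A z0).2 ⟨a0, by linarith [c0.1]⟩
    have p1 : z1 ∈ P A := (mP A z1).2 ⟨a1, by linarith [c1.1]⟩
    refine ⟨(P A).min' ⟨z0, p0⟩, (P A).max' ⟨z0, p0⟩, fun _ => ⟨min'_mem _ _, max'_mem _ _,
      fun z hz => ⟨min'_le _ _ hz, le_max' _ _ hz⟩, ?_, ?_⟩⟩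
    · linarith [min'_le _ _ p0, c0.1]
    · linarith [le_max' _ _ p1, c1.2]
  choose lo hi hlh using ex
  obtain ⟨g, hg⟩ : ∃ g : Finset (ZMod (k * (20 * m))) → ℝ → ZMod (k * (20 * m)),
      ∀ A z, g A z = b + ((round (ν * ((z - lo A) / (hi A - lo A))) : ℤ) : ZMod (k * (20 * m))) :=
    ⟨_, fun _ _ => rfl⟩
  have glo : ∀ A, g A (lo A) = b := fun A => by simp [hg]
  have ghi : ∀ A, A.card ≤ k + 1 → g A (hi A) = b := fun A a => by
    obtain ⟨-, -, -, c, d⟩ := hlh A a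
    rw [hg, div_self (by linarith), mul_one, hν, round_natCast, Int.cast_natCast,
      ZMod.natCast_self, add_zero]
  refine no_retr_pt hk m2 (fun A => (P A).image (g A)) (fun p j => ?_) (fun q j => ?_)
    (fun p i j u hu => ?_)
  · have a := Vx_card p j
    generalize Vx p j = A at a
    obtain ⟨a1, a2, -, a4, a5⟩ := hlh A a
    have c := h1 _ (S2 A) (by have := S1 A; omega)
    have d : (P A).card ≤ k + 2 := by
      rw [hP]
      rcases F.eq_empty_or_nonempty with e | ⟨y, hy⟩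
      · have := card_filter_le (r (S A)) (fun z => z ≤ 2)
        rw [e, card_empty] at c
        omega
      · have f : F.card ≤ 1 := card_le_one.2 fun x hx x' hx' => (hF x hx).trans (hF x' hx').symm
        obtain ⟨z, hz, f'⟩ := (N1 A a).2 y (Sg A y (by simp [hG, hy]))
        rw [hF y hy, Real.dist_eq, abs_le] at f'
        have := card_lt_card ((filter_ssubset (s := r (S A)) (p := fun z => z ≤ 2)).2
          ⟨z, hz, by linarith [f'.2]⟩)
        omega
    have e : ((P A).image (g A)).erase (ps k (20 * m) 0 (10 * m)) ⊆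
        (((P A).erase (lo A)).erase (hi A)).image (g A) := by
      intro u hu
      obtain ⟨u1, u2⟩ := mem_erase.1 hu
      obtain ⟨z, hz, rfl⟩ := mem_image.1 u2
      refine mem_image_of_mem _ (mem_erase.2 ⟨fun t => u1 ?_, mem_erase.2 ⟨fun t => u1 ?_, hz⟩⟩)
      · rw [t, ghi A a, hb]
      · rw [t, glo, hb]
    refine (card_le_card e).trans (card_image_le.trans ?_)
    rw [card_erase_of_mem (mem_erase.2 ⟨by linarith, a2⟩), card_erase_of_mem a1]
    omega
  · have a := Vx_card q j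
    generalize Vx q j = A at a
    obtain ⟨a1, a2, a3, a4, a5⟩ := hlh A (by omega)
    have m0 : ∀ z, z ∈ P A ↔ z ∈ S A ∧ z ≤ 2 := fun z => by rw [mP, S3 A a]
    have m1 : ∀ z ∈ P A, 0 ≤ z ∧ z ≤ 1 := fun z hz =>
      (S0 A z ((m0 z).1 hz).1).resolve_right fun t => by linarith [((m0 z).1 hz).2]
    have e0 : lo A = 0 :=
      le_antisymm (a3 0 ((m0 0).2 ⟨Sg A 0 g0, by norm_num⟩)).1 (m1 _ a1).1
    have e1 : hi A = 1 :=
      le_antisymm (m1 _ a2).2 (a3 1 ((m0 1).2 ⟨Sg A 1 g1, by norm_num⟩)).2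
    have e2 : ∀ u, g A (lpos b u) = u := fun u => by
      rw [hg, e0, e1, sub_zero, sub_zero, div_one, lpos, ← hν, mul_div_cancel₀ _ ν0.ne',
        round_natCast, Int.cast_natCast, ZMod.natCast_zmod_val, add_sub_cancel]
    ext u
    rw [← hb, mem_image, mem_insert]
    constructor
    · rintro ⟨z, hz, rfl⟩
      obtain ⟨c, d⟩ := (m0 z).1 hz
      rw [hS, mem_union, hG, mem_insert, mem_insert] at c
      rcases c with c | c | c | c
      · obtain ⟨v, hv, rfl⟩ := mem_image.1 c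
        exact Or.inr (by rwa [e2])
      · exact Or.inl (by rw [c, ← e0, glo])
      · exact Or.inl (by rw [c, ← e1, ghi A (by omega)])
      · linarith [hF z c]
    · rintro (c | c)
      · exact ⟨lo A, a1, by rw [glo, c]⟩
      · exact ⟨lpos b u, (m0 _).2 ⟨hS A ▸ mem_union_left _ (mem_image_of_mem _ c),
          by linarith [(lpos_mem b u).2]⟩, e2 u⟩
  · obtain ⟨z, hz, rfl⟩ := mem_image.1 hu
    have n0 : Near (S (Vx p i)) (S (Vx p j)) (1 / ν) := by
      rw [hS, hS, hν]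
      exact near_lpos b G g0 g1 zero_le_one (Vx_step p i j) (Vx_step p j i)
    have a := Vx_card p i
    have a' := Vx_card p j
    generalize Vx p i = A at *
    generalize Vx p j = B at *
    have n1 := h3 _ _ _ (S2 A) (by have := S1 A; omega) (S2 B) (by have := S1 B; omega)
      (by positivity) n0
    have e1 : ν * (L * (1 / ν)) = L := by field_simp
    have e2 : L * (1 / ν) ≤ 1 / 4 := by
      rw [mul_one_div, div_le_iff₀ ν0]
      linarith
    generalize L * (1 / ν) = e at *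
    have key : ∀ A B : Finset (ZMod (k * (20 * m))), A.card ≤ k + 1 → B.card ≤ k + 1 →
        Near (r (S A)) (r (S B)) e → ∀ x ∈ P A, ∃ y ∈ P B, |y - x| ≤ e := by
      intro A B a a' n x hx
      obtain ⟨x1, x2⟩ := (mP A x).1 hx
      obtain ⟨y, hy, c⟩ := n.1 x x1
      rw [dist_comm, Real.dist_eq] at c
      have d := N2 A a x x1 (by linarith)
      have d' := N2 B a' y hy (by linarith [(abs_le.1 c).2])
      exact ⟨y, (mP B y).2 ⟨hy, by linarith⟩, c⟩
    obtain ⟨a1, a2, a3, a4, a5⟩ := hlh A a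
    obtain ⟨b1, b2, b3, b4, b5⟩ := hlh B a'
    obtain ⟨z', hz', c⟩ := key A B a a' n1 z hz
    obtain ⟨y1, p1, c1⟩ := key A B a a' n1 _ a1
    obtain ⟨y2, p2, c2⟩ := key A B a a' n1 _ a2
    obtain ⟨y3, p3, c3⟩ := key B A a' a n1.symm _ b1
    obtain ⟨y4, p4, c4⟩ := key B A a' a n1.symm _ b2
    rw [abs_le] at c1 c2 c3 c4
    have d := line_ratio (z' := z') (lo' := lo B) (hi' := hi B) (a3 z hz).1 (a3 z hz).2
      (by linarith) (by linarith) c
      (abs_le.2 ⟨by linarith [(a3 y3 p3).1, c3.2], by linarith [(b3 y1 p1).1, c1.2]⟩)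
      (abs_le.2 ⟨by linarith [(b3 y2 p2).2, c2.1], by linarith [(a3 y4 p4).2, c4.1]⟩)
    refine ⟨_, mem_image_of_mem _ hz', round (ν * ((z' - lo B) / (hi B - lo B))) -
      round (ν * ((z - lo A) / (hi A - lo A))), line_round ?_, ?_⟩
    · rw [← mul_sub, abs_mul, abs_of_pos ν0]
      have := mul_le_mul_of_nonneg_left d ν0.le
      nlinarith
    · rw [hg, hg]
      push_cast
      ring

theorem lower_geo {X : Type} [MetricSpace X] [Nontrivial X] {σ : X → X → ℝ → X}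
    (hσ : IsConical σ) {n : ℕ} (hn : 2 ≤ n) {L : ℝ} {r : Finset X → Finset X}
    (h : IsLipRetr n L r) : (n : ℝ) / 100 ≤ L := by
  classical
  obtain ⟨x, y, hxy⟩ := exists_pair_ne X
  have D0 : 0 < dist x y := dist_pos.2 hxy
  have L1 : 1 ≤ L := by
    have a := h.2.2 {x} {y} (by simp) (by simp; omega) (by simp) (by simp; omega)
    rw [h.2.1 _ (by simp) (by simp; omega), h.2.1 _ (by simp) (by simp; omega), coe_singleton,
      coe_singleton, Metric.hausdorffDist_singleton] at a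
    exact (le_mul_iff_one_le_left D0).1 a
  obtain ⟨ι, hι⟩ : ∃ ι : ℝ → X, ∀ z, ι z = σ x y (max 0 (min (z / 3) 1)) := ⟨_, fun _ => rfl⟩
  obtain ⟨q, hq⟩ : ∃ q : X → ℝ, ∀ u, q u = 3 / dist x y * dist x u := ⟨_, fun _ => rfl⟩
  have cl : ∀ z : ℝ, max 0 (min (z / 3) 1) ∈ Set.Icc (0 : ℝ) 1 := fun z =>
    ⟨le_max_left _ _, max_le zero_le_one (min_le_right _ _)⟩
  have h1 : ∀ z, 0 ≤ z ∧ z ≤ 3 → q (ι z) = z := fun z hz => by
    have a := hσ.2.1 x y 0 ⟨le_rfl, zero_le_one⟩ _ (cl z)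
    rw [(hσ.1 x y).1] at a
    rw [hq, hι, a, min_eq_left (by linarith [hz.2]), max_eq_right (by linarith [hz.1]), zero_sub,
      abs_neg, abs_of_nonneg (by linarith [hz.1])]
    field_simp
  have h2 : ∀ z w, dist (ι z) (ι w) ≤ dist x y / 3 * dist z w := fun z w => by
    have a : |max 0 (min (z / 3) 1) - max 0 (min (w / 3) 1)| ≤ |z - w| / 3 := by
      have b1 := le_abs_self (z - w)
      have b2 := neg_abs_le (z - w)
      rw [abs_le]
      simp only [max_def, min_def]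
      split_ifs <;> constructor <;> linarith
    rw [hι, hι, hσ.2.1 x y _ (cl z) _ (cl w), Real.dist_eq]
    nlinarith
  have h3 : ∀ u v, dist (q u) (q v) ≤ 3 / dist x y * dist u v := fun u v => by
    rw [hq, hq, Real.dist_eq, ← mul_sub, abs_mul, abs_of_pos (by positivity), dist_comm x u,
      dist_comm x v]
    exact mul_le_mul_of_nonneg_left (abs_dist_sub_le u v x) (by positivity)
  by_contra c
  rw [not_le, lt_div_iff₀ (by norm_num)] at c
  have n3 : 100 ≤ n := by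
    have : (100 : ℝ) ≤ n := by linarith
    exact_mod_cast this
  have main : ∀ (k : ℕ) (F : Finset ℝ), Odd k → (∀ z ∈ F, z = 3) → n = k + 3 + F.card →
      F.card ≤ 1 → False := by
    intro k F hk hF e f
    refine line hk F hF (L := L) (by linarith) (r := fun s => (r (s.image ι)).image q)
      (fun s a b => ?_) (fun s a b d => ?_) (fun s t d a b a' b' hd p => ?_) ?_
    · have := (h.1 _ (a.image ι) (card_image_le.trans (e ▸ b))).2
      exact card_image_le.trans (by omega)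
    · rw [h.2.1 _ (a.image ι) (card_image_le.trans (by omega)), image_image]
      exact (image_congr fun z hz => h1 z (d z hz)).trans image_id
    · refine ((h.near (by linarith) (a.image ι) (card_image_le.trans (e ▸ b)) (a'.image ι)
        (card_image_le.trans (e ▸ b')) (by positivity) (p.image (by positivity) h2)).image
        (by positivity) h3).mono (le_of_eq ?_)
      field_simp
    · have a : (n : ℝ) ≤ k + 4 := by exact_mod_cast (by omega : n ≤ k + 4)
      have b : (100 : ℝ) ≤ n := by exact_mod_cast n3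
      linarith
  rcases Nat.even_or_odd n with ⟨j, e⟩ | ⟨j, e⟩
  · exact main (n - 3) ∅ ⟨j - 2, by omega⟩ (by simp) (by rw [card_empty]; omega) (by simp)
  · exact main (n - 4) {3} ⟨j - 2, by omega⟩ (by simp) (by rw [card_singleton]; omega) (by simp)

end Pool.Agent.Work.MP_dc63d3_gt
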