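import Pool.Agent.Work.MP_dc63d3_gt.B.Bar

/-!
The average of a path over the parameter interval `[1, 2]`, by repeated midpoints.
-/

set_option autoImplicit false

noncomputable section

namespace Pool.Agent.Work.MP_dc63d3_gt

open Filter Topology Finset

variable {X : Type} [MetricSpace X] {σ : X → X → ℝ → X}

/-- The average of the first `2 ^ K` terms, by repeated midpoints. -/
def avg (σ : X → X → ℝ → X) : ℕ → (ℕ → X) → X
  | 0, u => u 0
  | K + 1, u => avg σ K fun j => σ (u (2 * j)) (u (2 * j + 1)) (1 / 2)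

lemma sum_two (m : ℕ) (f : ℕ → ℝ) :
    ∑ j ∈ range (2 * m), f j = ∑ j ∈ range m, (f (2 * j) + f (2 * j + 1)) := by
  induction m with
  | zero => simp
  | succ m ih => rw [Nat.mul_succ, sum_range_succ, sum_range_succ, sum_range_succ, ih, add_assoc]

lemma half_mem : (1 / 2 : ℝ) ∈ Set.Icc (0 : ℝ) 1 := ⟨by norm_num, by norm_num⟩

lemma avg_dist (hσ : IsConical σ) (K : ℕ) : ∀ u v : ℕ → X,
    2 ^ K * dist (avg σ K u) (avg σ K v) ≤ ∑ j ∈ range (2 ^ K), dist (u j) (v j) := by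
  induction K with
  | zero => intro u v; simp [avg]
  | succ K ih =>
    intro u v
    have a := ih (fun j => σ (u (2 * j)) (u (2 * j + 1)) (1 / 2))
      (fun j => σ (v (2 * j)) (v (2 * j + 1)) (1 / 2))
    rw [pow_succ' (2 : ℕ) K, sum_two, pow_succ', mul_assoc]
    refine (mul_le_mul_of_nonneg_left a zero_le_two).trans ?_
    rw [mul_sum]
    refine sum_le_sum fun j _ => ?_
    linarith [hσ.2.2 (u (2 * j)) (u (2 * j + 1)) (v (2 * j)) (v (2 * j + 1)) _ half_mem]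

lemma avg_mem {S : Set X} (hS : Cvx σ S) (K : ℕ) : ∀ u : ℕ → X, (∀ j < 2 ^ K, u j ∈ S) →
    avg σ K u ∈ S := by
  induction K with
  | zero => exact fun u h => h 0 (by simp)
  | succ K ih =>
    exact fun u h => ih _ fun j hj =>
      hS.2 _ (h _ (by rw [pow_succ]; omega)) _ (h _ (by rw [pow_succ]; omega)) _ half_mem

lemma shift_sum {N : ℝ → ℝ} (hN : Monotone N) {n α : ℝ} (hα : 0 ≤ α) (h0 : ∀ t, 0 ≤ N t)
    (h1 : ∀ t, N t ≤ n) (u : ℝ) {J : ℕ} (hJ : 0 < J) :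
    ∑ j ∈ range J, (N (u + j / J + α) - N (u + j / J)) ≤ (α * J + 1) * n := by
  have hJ' : (0 : ℝ) < J := by exact_mod_cast hJ
  obtain ⟨m, hm⟩ : ∃ m, m = ⌈α * J⌉₊ := ⟨_, rfl⟩
  have m1 : α * J ≤ m := hm ▸ Nat.le_ceil _
  have m2 : (m : ℝ) ≤ α * J + 1 := hm ▸ (Nat.ceil_lt_add_one (by positivity)).le
  let g : ℕ → ℝ := fun i => N (u + i / J)
  have a : ∑ j ∈ range J, (N (u + j / J + α) - N (u + j / J)) ≤
      ∑ j ∈ range J, (g (m + j) - g j) := by
    refine sum_le_sum fun j _ => sub_le_sub_right (hN ?_) _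
    have := (le_div_iff₀ hJ').2 m1
    push_cast
    rw [add_div]
    linarith
  have b1 := sum_range_add g J m
  have b2 := sum_range_add g m J
  have c1 : ∑ j ∈ range m, g (J + j) ≤ m * n := by
    simpa using sum_le_sum (s := range m) (f := fun j => g (J + j)) (g := fun _ => n)
      fun j _ => h1 _
  have c2 : 0 ≤ ∑ j ∈ range m, g j := sum_nonneg fun j _ => h0 _
  rw [add_comm m J] at b2
  rw [sum_sub_distrib (fun j => g (m + j))] at a
  have := mul_le_mul_of_nonneg_right m2 ((h0 0).trans (h1 0))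
  linarith

/-- The dyadic average of `f` over `[1, 2]`. -/
def dy (σ : X → X → ℝ → X) (f : ℝ → X) (K : ℕ) : X :=
  avg σ K fun j => f (1 + j / (2 ^ K : ℕ))

lemma node_mem {K j : ℕ} (h : j < 2 ^ K) : (1 + (j : ℝ) / (2 ^ K : ℕ)) ∈ Set.Icc (1 : ℝ) 2 := by
  have a : (j : ℝ) / (2 ^ K : ℕ) ≤ 1 := (div_le_one (by positivity)).2 (by exact_mod_cast h.le)
  have b : 0 ≤ (j : ℝ) / (2 ^ K : ℕ) := by positivity
  constructor <;> linarith

/-- A path of bounded variation inside a complete convex set. -/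
def Tame (σ : X → X → ℝ → X) (f : ℝ → X) : Prop :=
  (∃ S, Cvx σ S ∧ ∀ t ∈ Set.Icc (1 : ℝ) 2, f t ∈ S) ∧
  ∃ (N : ℝ → ℝ) (n : ℝ), (∀ t, 0 ≤ N t) ∧ (∀ t, N t ≤ n) ∧
    ∀ t ∈ Set.Icc (1 : ℝ) 2, ∀ t' ∈ Set.Icc (1 : ℝ) 2, t ≤ t' → dist (f t) (f t') ≤ N t' - N t

/-- The average of `f` over `[1, 2]`. -/
def mean [Nonempty X] (σ : X → X → ℝ → X) (f : ℝ → X) : X := limUnder atTop (dy σ f)

lemma Tame.tendsto [Nonempty X] (hσ : IsConical σ) {f : ℝ → X} (h : Tame σ f) :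
    Tendsto (dy σ f) atTop (𝓝 (mean σ f)) := by
  obtain ⟨⟨S, hS, hm⟩, N, n, h0, h1, h2⟩ := h
  have cs : CauchySeq (dy σ f) := by
    refine cauchySeq_of_le_geometric (1 / 2) n (by norm_num) fun K => ?_
    have a := avg_dist hσ K (fun j => f (1 + j / (2 ^ K : ℕ)))
      (fun j => σ (f (1 + (2 * j : ℕ) / (2 ^ (K + 1) : ℕ)))
        (f (1 + (2 * j + 1 : ℕ) / (2 ^ (K + 1) : ℕ))) (1 / 2))
    have b : ∀ j ∈ range (2 ^ K), dist (f (1 + j / (2 ^ K : ℕ)))
        (σ (f (1 + (2 * j : ℕ) / (2 ^ (K + 1) : ℕ)))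
          (f (1 + (2 * j + 1 : ℕ) / (2 ^ (K + 1) : ℕ))) (1 / 2)) ≤
        N (1 + (2 * (j + 1) - 1 : ℕ) / (2 ^ (K + 1) : ℕ)) -
          N (1 + (2 * j - 1 : ℕ) / (2 ^ (K + 1) : ℕ)) := by
      intro j hj
      have hj' := mem_range.1 hj
      have e : (1 : ℝ) + j / (2 ^ K : ℕ) = 1 + (2 * j : ℕ) / (2 ^ (K + 1) : ℕ) := by
        push_cast
        field_simp
        ring
      have le : ∀ p q : ℕ, p ≤ q → (1 : ℝ) + p / (2 ^ (K + 1) : ℕ) ≤ 1 + q / (2 ^ (K + 1) : ℕ) :=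
        fun p q hpq => by gcongr
      have m0 := node_mem (K := K + 1) (j := 2 * j - 1) (by rw [pow_succ]; omega)
      have m1 := node_mem (K := K + 1) (j := 2 * j) (by rw [pow_succ]; omega)
      have m2 := node_mem (K := K + 1) (j := 2 * j + 1) (by rw [pow_succ]; omega)
      have c0 := dist_nonneg.trans (h2 _ m0 _ m1 (le _ _ (by omega)))
      have c1 := h2 _ m1 _ m2 (le _ _ (by omega))
      have c2 := hσ.2.1 (f (1 + (2 * j : ℕ) / (2 ^ (K + 1) : ℕ)))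
        (f (1 + (2 * j + 1 : ℕ) / (2 ^ (K + 1) : ℕ))) 0 ⟨le_rfl, zero_le_one⟩ _ half_mem
      rw [(hσ.1 _ _).1] at c2
      rw [e, c2, show 2 * (j + 1) - 1 = 2 * j + 1 by omega, zero_sub, abs_neg,
        abs_of_nonneg half_mem.1]
      linarith [dist_nonneg.trans c1]
    have c := a.trans (sum_le_sum b)
    rw [sum_range_sub fun j => N (1 + (2 * j - 1 : ℕ) / (2 ^ (K + 1) : ℕ))] at c
    rw [one_div, inv_pow, ← div_eq_mul_inv, le_div_iff₀ (by positivity), mul_comm]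
    exact c.trans ((sub_le_self _ (h0 _)).trans (h1 _))
  obtain ⟨v, -, tv⟩ := cauchySeq_tendsto_of_isComplete hS.1
    (fun K => avg_mem hS K _ fun j hj => hm _ (node_mem hj)) cs
  exact tendsto_nhds_limUnder ⟨v, tv⟩

lemma mean_congr [Nonempty X] (hσ : IsConical σ) {f g : ℝ → X}
    (h : ∀ t ∈ Set.Icc (1 : ℝ) 2, f t = g t) : mean σ f = mean σ g := by
  unfold mean
  congr 1
  funext K
  have a := avg_dist hσ K (fun j => f (1 + j / (2 ^ K : ℕ))) (fun j => g (1 + j / (2 ^ K : ℕ)))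
  rw [sum_eq_zero fun j hj => by rw [h _ (node_mem (mem_range.1 hj)), dist_self],
    ← mul_zero ((2 : ℝ) ^ K)] at a
  exact dist_le_zero.1 (le_of_mul_le_mul_left a (by positivity))

lemma mean_rad [Nonempty X] (hσ : IsConical σ) {f : ℝ → X} (h : Tame σ f) {z : X} {R : ℝ}
    (hR : ∀ t ∈ Set.Icc (1 : ℝ) 2, dist (f t) z ≤ R) : dist (mean σ f) z ≤ R := by
  refine le_of_tendsto' ((h.tendsto hσ).dist tendsto_const_nhds) fun K => ?_
  have a := avg_dist hσ K (fun j => f (1 + j / (2 ^ K : ℕ))) (fun _ => z)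
  have b : avg σ K (fun _ => z) = z := avg_mem (hσ.cvx_single z) K _ fun _ _ => rfl
  rw [b] at a
  have c := a.trans (sum_le_sum (g := fun _ => R) fun j hj => hR _ (node_mem (mem_range.1 hj)))
  rw [sum_const, card_range, nsmul_eq_mul, Nat.cast_pow 2 K, Nat.cast_ofNat] at c
  exact le_of_mul_le_mul_left (a := (2 : ℝ) ^ K) (by simpa [dy] using c) (by positivity)

lemma mean_dist [Nonempty X] (hσ : IsConical σ) {f g : ℝ → X} (hf : Tame σ f) (hg : Tame σ g)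
    {N : ℝ → ℝ} (hN : Monotone N) {n η c d : ℝ} (hη : 0 ≤ η) (hc : 0 ≤ c) (h0 : ∀ t, 0 ≤ N t)
    (h1 : ∀ t, N t ≤ n) (h : ∀ t ∈ Set.Icc (1 : ℝ) 2,
      dist (f t) (g t) ≤ d + c * ((N (t + η) - N t) + (N (t + η) - N (t - η)))) :
    dist (mean σ f) (mean σ g) ≤ d + 3 * c * η * n := by
  have t0 : Tendsto (fun K : ℕ => d + 3 * c * η * n + 2 * c * n * (1 / 2 : ℝ) ^ K) atTop
      (𝓝 (d + 3 * c * η * n)) := by
    simpa using ((tendsto_pow_atTop_nhds_zero_of_lt_one half_mem.1 (by norm_num)).const_mul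
      (2 * c * n)).const_add (d + 3 * c * η * n)
  refine le_of_tendsto_of_tendsto' ((hf.tendsto hσ).dist (hg.tendsto hσ)) t0 fun K => ?_
  have a := (avg_dist hσ K (fun j => f (1 + j / (2 ^ K : ℕ)))
    (fun j => g (1 + j / (2 ^ K : ℕ)))).trans
      (sum_le_sum fun j hj => h _ (node_mem (mem_range.1 hj)))
  have b1 := shift_sum hN hη h0 h1 1 (J := 2 ^ K) (by positivity)
  have b2 := shift_sum hN (α := 2 * η) (by linarith) h0 h1 (1 - η) (J := 2 ^ K) (by positivity)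
  have e : ∀ j : ℕ, N (1 - η + j / (2 ^ K : ℕ) + 2 * η) - N (1 - η + j / (2 ^ K : ℕ)) =
      N (1 + j / (2 ^ K : ℕ) + η) - N (1 + j / (2 ^ K : ℕ) - η) := fun j => by
    congr 2 <;> ring
  simp only [e] at b2
  rw [sum_add_distrib, ← mul_sum, sum_add_distrib, sum_const, card_range, nsmul_eq_mul] at a
  have b3 := mul_le_mul_of_nonneg_left (add_le_add b1 b2) hc
  have p : (0 : ℝ) < 2 ^ K := by positivity
  refine le_of_mul_le_mul_left ((a.trans (add_le_add_right b3 _)).trans (le_of_eq ?_)) p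
  push_cast
  rw [one_div, inv_pow]
  field_simp
  ring

end Pool.Agent.Work.MP_dc63d3_gt
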