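import Pool.Agent.Work.MP_dc63d3_gt.B.Defs

/-!
A symmetric centre of a finite set in a space with a conical geodesic bicombing.
-/

set_option autoImplicit false

noncomputable section

namespace Pool.Agent.Work.MP_dc63d3_gt

open Filter Topology

variable {X : Type} [MetricSpace X] {σ : X → X → ℝ → X}

/-- A complete set that contains the chosen geodesics between its points. -/
def Cvx (σ : X → X → ℝ → X) (K : Set X) : Prop :=
  IsComplete K ∧ ∀ x ∈ K, ∀ y ∈ K, ∀ t ∈ Set.Icc (0 : ℝ) 1, σ x y t ∈ K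

lemma IsConical.self (hσ : IsConical σ) (z : X) {t : ℝ} (ht : t ∈ Set.Icc (0 : ℝ) 1) :
    σ z z t = z := by
  have a := hσ.2.1 z z t ht 0 ⟨le_rfl, zero_le_one⟩
  rwa [(hσ.1 z z).1, dist_self, mul_zero, dist_eq_zero] at a

lemma IsConical.cvx_single (hσ : IsConical σ) (z : X) : Cvx σ {z} :=
  ⟨isCompact_singleton.isComplete, fun x hx y hy t ht => by
    rw [Set.mem_singleton_iff] at hx hy ⊢
    rw [hx, hy, hσ.self z ht]⟩

lemma HullsComplete.cvx (hc : HullsComplete σ) (S : Multiset X) :
    ∃ K, Cvx σ K ∧ ∀ x ∈ S, x ∈ K := by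
  classical
  obtain ⟨K, a, b, c⟩ := hc S.toFinset
  exact ⟨K, ⟨a, c⟩, fun x hx => b (by simpa using hx)⟩

/-- The sum of the distances to `z`. -/
def sd (S : Multiset X) (z : X) : ℝ := (S.map fun x => dist x z).sum

/-- The sum of the distances inside the pairs. -/
def pd (P : Multiset (X × X)) : ℝ := (P.map fun p => dist p.1 p.2).sum

lemma sum_le_of {α : Type} {S : Multiset α} {f : α → ℝ} {c : ℝ} (h : ∀ x ∈ S, f x ≤ c) :
    (S.map f).sum ≤ S.card * c := by
  have := Multiset.sum_map_le_sum_map (s := S) f (fun _ => c) h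
  simpa using this

lemma sum_le_of' {α : Type} {S : Multiset α} {f : α → ℝ} {c : ℝ} {k : ℕ} (hk : S.card = k + 1)
    (h : ∀ x ∈ S, ((k : ℝ) + 1) * f x ≤ c) : (S.map f).sum ≤ c := by
  have h0 : (0 : ℝ) < k + 1 := by positivity
  have := sum_le_of (c := c / (k + 1)) (fun x hx => by
    rw [le_div_iff₀ h0, mul_comm]
    exact h x hx)
  rw [hk] at this
  push_cast at this
  rwa [mul_div_cancel₀ _ h0.ne'] at this

lemma pd_tri (P : Multiset (X × X)) (v w : X) :
    P.card * dist v w ≤ sd (P.map Prod.fst) v + pd P + sd (P.map Prod.snd) w := by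
  induction P using Multiset.induction_on with
  | empty => simp [sd, pd]
  | cons p P ih =>
    simp only [sd, pd, Multiset.map_cons, Multiset.sum_cons, Multiset.card_cons] at ih ⊢
    have := dist_triangle4 v p.1 p.2 w
    rw [dist_comm v p.1] at this
    push_cast
    linarith

lemma sd_tri (S : Multiset X) (v w : X) : S.card * dist v w ≤ sd S v + sd S w := by
  induction S using Multiset.induction_on with
  | empty => simp [sd]
  | cons p P ih =>
    simp only [sd, Multiset.map_cons, Multiset.sum_cons, Multiset.card_cons] at ih ⊢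
    have := dist_triangle_left v w p
    push_cast
    linarith

/-- The two properties carried through the induction on the number of points. -/
def Inv (σ : X → X → ℝ → X) (k : ℕ) (b : Multiset X → X) : Prop :=
  (∀ K, Cvx σ K → ∀ S : Multiset X, S.card = k → 0 < k → (∀ x ∈ S, x ∈ K) → b S ∈ K) ∧
  ∀ P : Multiset (X × X), P.card = k →
    k * dist (b (P.map Prod.fst)) (b (P.map Prod.snd)) ≤ pd P

lemma Inv.sd_le {k : ℕ} {b : Multiset X → X} (h : Inv σ k b) (hσ : IsConical σ) {S : Multiset X}
    (hS : S.card = k) (z : X) : k * dist (b S) z ≤ sd S z := by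
  rcases Nat.eq_zero_or_pos k with rfl | hk
  · rw [Multiset.card_eq_zero.1 hS]
    simp [sd]
  · have a := h.2 (S.map fun x => (x, z)) (by simpa using hS)
    have c : b ((S.map fun x => (x, z)).map Prod.snd) = z :=
      h.1 {z} (hσ.cvx_single z) _ (by simpa using hS) hk (by
        intro x hx
        simp only [Multiset.map_map, Multiset.mem_map] at hx
        obtain ⟨_, _, e⟩ := hx
        exact e.symm)
    rw [c] at a
    simpa [pd, sd] using a

open Classical in
/-- Every point moves towards the centre of the others. -/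
def Tst (σ : X → X → ℝ → X) (k : ℕ) (b : Multiset X → X) (S : Multiset X) : Multiset X :=
  S.map fun x => σ x (b (S.erase x)) (k / (k + 1))

open Classical in
/-- The same move on both sides of a family of pairs. -/
def Tpr (σ : X → X → ℝ → X) (k : ℕ) (b : Multiset X → X) (P : Multiset (X × X)) :
    Multiset (X × X) :=
  P.map fun p => (σ p.1 (b ((P.erase p).map Prod.fst)) (k / (k + 1)),
    σ p.2 (b ((P.erase p).map Prod.snd)) (k / (k + 1)))

lemma tk_mem (k : ℕ) : (k : ℝ) / (k + 1) ∈ Set.Icc (0 : ℝ) 1 :=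
  ⟨by positivity, (div_le_one (by positivity)).2 (by linarith)⟩

lemma IsConical.step (hσ : IsConical σ) (k : ℕ) (x y x' y' : X) :
    ((k : ℝ) + 1) * dist (σ x y (k / (k + 1))) (σ x' y' (k / (k + 1))) ≤
      dist x x' + k * dist y y' := by
  have h0 : (0 : ℝ) < k + 1 := by positivity
  refine (mul_le_mul_of_nonneg_left (hσ.2.2 x y x' y' _ (tk_mem k)) h0.le).trans (le_of_eq ?_)
  field_simp
  ring

lemma Tpr_fst (k : ℕ) (b : Multiset X → X) (P : Multiset (X × X)) :
    (Tpr σ k b P).map Prod.fst = Tst σ k b (P.map Prod.fst) := by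
  classical
  rw [Tpr, Tst, Multiset.map_map, Multiset.map_map]
  refine Multiset.map_congr rfl fun p hp => ?_
  simp only [Function.comp]
  congr 2
  convert Multiset.map_erase_of_mem Prod.fst P hp

lemma Tpr_snd (k : ℕ) (b : Multiset X → X) (P : Multiset (X × X)) :
    (Tpr σ k b P).map Prod.snd = Tst σ k b (P.map Prod.snd) := by
  classical
  rw [Tpr, Tst, Multiset.map_map, Multiset.map_map]
  refine Multiset.map_congr rfl fun p hp => ?_
  simp only [Function.comp]
  congr 2
  convert Multiset.map_erase_of_mem Prod.snd P hp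

lemma Tst_card (k : ℕ) (b : Multiset X → X) (S : Multiset X) : (Tst σ k b S).card = S.card := by
  simp [Tst]

lemma Tpr_card (k : ℕ) (b : Multiset X → X) (P : Multiset (X × X)) :
    (Tpr σ k b P).card = P.card := by
  simp [Tpr]

section step

variable {k : ℕ} {b : Multiset X → X}

lemma Tpr_le (h : Inv σ k b) (hσ : IsConical σ) {P : Multiset (X × X)} (hP : P.card = k + 1) :
    pd (Tpr σ k b P) ≤ pd P := by
  classical
  rw [Tpr, pd, Multiset.map_map]
  refine sum_le_of' hP fun p hp => (hσ.step k _ _ _ _).trans ?_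
  have a := h.2 (P.erase p) (by rw [Multiset.card_erase_of_mem hp, hP]; rfl)
  have c : pd P = dist p.1 p.2 + pd (P.erase p) := by
    conv_lhs => rw [← Multiset.cons_erase hp]
    simp [pd]
  rw [c]
  convert add_le_add_right a (dist p.1 p.2)

lemma Tst_pt (h : Inv σ k b) (hσ : IsConical σ) {S : Multiset X} (hS : S.card = k + 1) {u : X}
    (hu : u ∈ Tst σ k b S) (z : X) : ((k : ℝ) + 1) * dist u z ≤ sd S z := by
  classical
  obtain ⟨x, hx, rfl⟩ := Multiset.mem_map.1 hu
  have a := hσ.step k x (b (S.erase x)) z z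
  rw [hσ.self z (tk_mem k)] at a
  have c := h.sd_le hσ (S := S.erase x) (by rw [Multiset.card_erase_of_mem hx, hS]; rfl) z
  have e : sd S z = dist x z + sd (S.erase x) z := by
    conv_lhs => rw [← Multiset.cons_erase hx]
    simp [sd]
  linarith

lemma Tst_le (h : Inv σ k b) (hσ : IsConical σ) {S : Multiset X} (hS : S.card = k + 1) (z : X) :
    sd (Tst σ k b S) z ≤ sd S z :=
  sum_le_of' ((Tst_card k b S).trans hS) fun _ hu => Tst_pt h hσ hS hu z

lemma Tst_mem (h : Inv σ k b) (hσ : IsConical σ) {S : Multiset X} (hS : S.card = k + 1)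
    {K : Set X} (hK : Cvx σ K) (hm : ∀ x ∈ S, x ∈ K) : ∀ u ∈ Tst σ k b S, u ∈ K := by
  classical
  intro u hu
  obtain ⟨x, hx, rfl⟩ := Multiset.mem_map.1 hu
  rcases Nat.eq_zero_or_pos k with rfl | hk
  · simp only [Nat.cast_zero, zero_div, (hσ.1 _ _).1]
    exact hm x hx
  · exact hK.2 _ (hm x hx) _ (h.1 K hK _ (by rw [Multiset.card_erase_of_mem hx, hS]; rfl) hk
      fun y hy => hm y (Multiset.mem_of_mem_erase hy)) _ (tk_mem k)

lemma Tst_near (h : Inv σ k b) (hσ : IsConical σ) {S : Multiset X} (hS : S.card = k + 1) {r : ℝ}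
    (hr : ∀ x ∈ S, ∀ y ∈ S, dist x y ≤ r) :
    ∀ u ∈ Tst σ k b S, ∀ y ∈ S, dist u y ≤ r * (k / (k + 1)) := by
  classical
  intro u hu y hy
  have h0 : (0 : ℝ) < k + 1 := by positivity
  have a := Tst_pt h hσ hS hu y
  have e : sd S y = sd (S.erase y) y := by
    conv_lhs => rw [← Multiset.cons_erase hy]
    simp [sd]
  have c : sd (S.erase y) y ≤ (S.erase y).card * r :=
    sum_le_of fun x hx => hr x (Multiset.mem_of_mem_erase hx) y hy
  rw [Multiset.card_erase_of_mem hy, hS, Nat.pred_succ] at c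
  rw [← mul_div_assoc, le_div_iff₀ h0]
  linarith

lemma Tst_diam (h : Inv σ k b) (hσ : IsConical σ) {S : Multiset X} (hS : S.card = k + 1) {r : ℝ}
    (hr : ∀ x ∈ S, ∀ y ∈ S, dist x y ≤ r) :
    ∀ u ∈ Tst σ k b S, ∀ v ∈ Tst σ k b S, dist u v ≤ r * (k / (k + 1)) := by
  intro u hu v hv
  have h0 : (0 : ℝ) < k + 1 := by positivity
  have a := Tst_pt h hσ hS hu v
  have c : sd S v ≤ S.card * (r * (k / (k + 1))) :=
    sum_le_of fun x hx => by rw [dist_comm]; exact Tst_near h hσ hS hr v hv x hx
  rw [hS] at c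
  push_cast at c
  exact le_of_mul_le_mul_left (a.trans c) h0

lemma iter_card (n : ℕ) (S : Multiset X) : ((Tst σ k b)^[n] S).card = S.card := by
  induction n with
  | zero => rfl
  | succ n ih => rw [Function.iterate_succ_apply', Tst_card, ih]

lemma exists_lim (h : Inv σ k b) (hσ : IsConical σ) {S : Multiset X} (hS : S.card = k + 1)
    {K : Set X} (hK : Cvx σ K) (hm : ∀ x ∈ S, x ∈ K) :
    ∃ v ∈ K, Tendsto (fun n => sd ((Tst σ k b)^[n] S) v) atTop (𝓝 0) := by
  obtain ⟨r, hr⟩ : ∃ r, ∀ x ∈ S, ∀ y ∈ S, dist x y ≤ r := by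
    obtain ⟨r, hr⟩ := Metric.isBounded_iff.1 (Multiset.finite_toSet S).isBounded
    exact ⟨r, fun x hx y hy => hr hx hy⟩
  have c : ∀ n, ((Tst σ k b)^[n] S).card = k + 1 := fun n => (iter_card n S).trans hS
  have m : ∀ n, ∀ x ∈ (Tst σ k b)^[n] S, x ∈ K := by
    intro n
    induction n with
    | zero => exact hm
    | succ n ih =>
      rw [Function.iterate_succ_apply']
      exact Tst_mem h hσ (c n) hK ih
  have d : ∀ n, ∀ x ∈ (Tst σ k b)^[n] S, ∀ y ∈ (Tst σ k b)^[n] S,
      dist x y ≤ r * (k / (k + 1)) ^ n := by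
    intro n
    induction n with
    | zero => simpa using hr
    | succ n ih =>
      rw [Function.iterate_succ_apply', pow_succ, ← mul_assoc]
      exact Tst_diam h hσ (c n) ih
  choose u hu using fun n => Multiset.card_pos_iff_exists_mem.1 (c n ▸ Nat.succ_pos k :
    0 < ((Tst σ k b)^[n] S).card)
  have t1 : (k : ℝ) / (k + 1) < 1 := (div_lt_one (by positivity)).2 (by linarith)
  have cs : CauchySeq u := by
    refine cauchySeq_of_le_geometric (k / (k + 1)) (r * (k / (k + 1))) t1 fun n => ?_
    have a := hu (n + 1)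
    rw [Function.iterate_succ_apply'] at a
    rw [dist_comm]
    exact (Tst_near h hσ (c n) (d n) _ a _ (hu n)).trans (le_of_eq (by ring))
  obtain ⟨v, hv, tv⟩ := cauchySeq_tendsto_of_isComplete hK.1 (fun n => m n _ (hu n)) cs
  refine ⟨v, hv, squeeze_zero (g := fun n => ((k + 1 : ℕ) : ℝ) *
    (r * (k / (k + 1)) ^ n + dist (u n) v)) (fun n => ?_) (fun n => ?_) ?_⟩
  · exact Multiset.sum_nonneg fun x hx => by
      obtain ⟨y, _, rfl⟩ := Multiset.mem_map.1 hx
      exact dist_nonneg
  · rw [← c n]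
    exact sum_le_of fun x hx => (dist_triangle x (u n) v).trans
      (add_le_add_left (d n x hx _ (hu n)) _)
  · have a := ((tendsto_pow_atTop_nhds_zero_of_lt_one (tk_mem k).1 t1).const_mul r).add
      (tendsto_iff_dist_tendsto_zero.1 tv)
    simpa using a.const_mul ((k + 1 : ℕ) : ℝ)

lemma step [Nonempty X] (hσ : IsConical σ) (hc : HullsComplete σ) (h : Inv σ k b) :
    ∃ b' : Multiset X → X, Inv σ (k + 1) b' ∧ ∀ S : Multiset X, S.card = k + 1 → ∀ z,
      ((k : ℝ) + 1) * dist (b' S) z ≤ sd (Tst σ k b S) z := by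
  have e : ∀ S : Multiset X, S.card = k + 1 →
      ∃ v, Tendsto (fun n => sd ((Tst σ k b)^[n] S) v) atTop (𝓝 0) := fun S hS => by
    obtain ⟨K, hK, hm⟩ := hc.cvx S
    exact (exists_lim h hσ hS hK hm).imp fun _ a => a.2
  choose! b' hb using e
  refine ⟨b', ⟨fun K hK S hS _ hm => ?_, fun P hP => ?_⟩, fun S hS z => ?_⟩
  · obtain ⟨v, hv, tv⟩ := exists_lim h hσ hS hK hm
    have a := ge_of_tendsto' ((hb S hS).add tv) (b := ((k + 1 : ℕ) : ℝ) * dist (b' S) v)
      fun n => by
        have := sd_tri ((Tst σ k b)^[n] S) (b' S) v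
        rwa [iter_card, hS] at this
    have h0 : (0 : ℝ) < ((k + 1 : ℕ) : ℝ) := by positivity
    rw [add_zero, ← mul_zero ((k + 1 : ℕ) : ℝ)] at a
    rwa [dist_le_zero.1 (le_of_mul_le_mul_left a h0)]
  · have i : ∀ n, ((Tpr σ k b)^[n] P).card = k + 1 ∧ pd ((Tpr σ k b)^[n] P) ≤ pd P ∧
        ((Tpr σ k b)^[n] P).map Prod.fst = (Tst σ k b)^[n] (P.map Prod.fst) ∧
        ((Tpr σ k b)^[n] P).map Prod.snd = (Tst σ k b)^[n] (P.map Prod.snd) := by
      intro n
      induction n with
      | zero => exact ⟨hP, le_rfl, rfl, rfl⟩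
      | succ n ih =>
        simp only [Function.iterate_succ_apply']
        exact ⟨(Tpr_card _ _ _).trans ih.1, (Tpr_le h hσ ih.1).trans ih.2.1,
          by rw [Tpr_fst, ih.2.2.1], by rw [Tpr_snd, ih.2.2.2]⟩
    have a := ge_of_tendsto' (((hb (P.map Prod.fst) (by simpa using hP)).add_const (pd P)).add
      (hb (P.map Prod.snd) (by simpa using hP)))
      (b := ((k + 1 : ℕ) : ℝ) * dist (b' (P.map Prod.fst)) (b' (P.map Prod.snd))) fun n => by
        have := pd_tri ((Tpr σ k b)^[n] P) (b' (P.map Prod.fst)) (b' (P.map Prod.snd))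
        rw [(i n).1, (i n).2.2.1, (i n).2.2.2] at this
        linarith [(i n).2.1]
    simpa using a
  · have i : ∀ n, sd ((Tst σ k b)^[n + 1] S) z ≤ sd (Tst σ k b S) z := by
      intro n
      induction n with
      | zero => exact le_rfl
      | succ n ih =>
        rw [Function.iterate_succ_apply']
        exact (Tst_le h hσ ((iter_card _ S).trans hS) z).trans ih
    have a := ge_of_tendsto' (((hb S hS).comp (tendsto_add_atTop_nat 1)).add_const
      (sd (Tst σ k b S) z)) (b := ((k + 1 : ℕ) : ℝ) * dist (b' S) z) fun n => by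
        have := sd_tri ((Tst σ k b)^[n + 1] S) (b' S) z
        rw [iter_card, hS] at this
        have := i n
        simp only [Function.comp]
        linarith
    simpa using a

lemma removal (hσ : IsConical σ) (h : Inv σ k b) (hk : 0 < k) {R : Multiset X} (hR : R.card = k)
    {x : X} {r : ℝ} (hr : ∀ p ∈ x ::ₘ R, ∀ q ∈ x ::ₘ R, dist p q ≤ r) :
    sd (Tst σ k b (x ::ₘ R)) (b R) ≤ 2 * r := by
  classical
  have hk' : (0 : ℝ) < k := by exact_mod_cast hk
  rw [Tst, sd, Multiset.map_map]
  refine sum_le_of' (by rw [Multiset.card_cons, hR]) fun y hy => ?_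
  have a := hσ.step k y (b ((x ::ₘ R).erase y)) (b R) (b R)
  rw [hσ.self _ (tk_mem k)] at a
  have c : dist y (b R) ≤ r := by
    have c1 := h.sd_le hσ hR y
    have c2 : sd R y ≤ R.card * r :=
      sum_le_of fun p hp => hr p (Multiset.mem_cons_of_mem hp) y hy
    rw [hR] at c2
    rw [dist_comm]
    exact le_of_mul_le_mul_left (c1.trans c2) hk'
  have d : k * dist (b ((x ::ₘ R).erase y)) (b R) ≤ r := by
    by_cases e : y = x
    · rw [e, Multiset.erase_cons_head, dist_self, mul_zero]
      exact dist_nonneg.trans c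
    · have hy' : y ∈ R := (Multiset.mem_cons.1 hy).resolve_left e
      have d1 := h.2 ((x, y) ::ₘ (R.erase y).map fun p => (p, p)) (by
        rw [Multiset.card_cons, Multiset.card_map, Multiset.card_erase_of_mem hy', hR]
        exact Nat.succ_pred_eq_of_pos hk)
      simp only [Multiset.map_cons, Multiset.map_map, Function.comp_def, Multiset.map_id', pd,
        dist_self, Multiset.sum_cons, Multiset.cons_erase hy', Multiset.sum_map_zero,
        add_zero] at d1
      rw [Multiset.erase_cons_tail _ (Ne.symm e)]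
      exact d1.trans (hr x (Multiset.mem_cons_self _ _) y hy)
  simp only [Function.comp]
  linarith

end step

lemma exists_bar [Nonempty X] (hσ : IsConical σ) (hc : HullsComplete σ) :
    ∃ B : Multiset X → X, (∀ k, Inv σ k B) ∧ ∀ (R : Multiset X) (x : X) (r : ℝ), 0 < R.card →
      (∀ p ∈ x ::ₘ R, ∀ q ∈ x ::ₘ R, dist p q ≤ r) →
        ((R.card : ℝ) + 1) * dist (B (x ::ₘ R)) (B R) ≤ 2 * r := by
  choose! nx h1 h2 using fun k b => step (k := k) (b := b) hσ hc
  let b : ℕ → Multiset X → X := fun k => Nat.rec (fun _ => Classical.arbitrary X) nx k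
  have i : ∀ k, Inv σ k (b k) := by
    intro k
    induction k with
    | zero =>
      refine ⟨fun _ _ _ _ c => absurd c (lt_irrefl 0), fun P hP => ?_⟩
      rw [Multiset.card_eq_zero.1 hP]
      simp [pd]
    | succ k ih => exact h1 k _ ih
  refine ⟨fun S => b S.card S, fun k => ⟨fun K hK S hS hk hm => ?_, fun P hP => ?_⟩,
    fun R x r hR hr => ?_⟩
  · dsimp only
    rw [hS]
    exact (i k).1 K hK S hS hk hm
  · simp only [Multiset.card_map, hP]
    exact (i k).2 P hP
  · simp only [Multiset.card_cons]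
    exact (h2 _ _ (i _) _ (Multiset.card_cons _ _) _).trans (removal hσ (i _) hR rfl hr)

/-- The properties of the centre that the retraction uses. -/
def IsCtr (σ : X → X → ℝ → X) (B : Finset X → X) : Prop :=
  (∀ K, Cvx σ K → ∀ D : Finset X, D.Nonempty → (∀ x ∈ D, x ∈ K) → B D ∈ K) ∧
  (∀ (D : Finset X) (z : X) (r : ℝ), D.Nonempty → (∀ x ∈ D, dist x z ≤ r) → dist (B D) z ≤ r) ∧
  (∀ (D D' : Finset X) (φ : X → X) (d : ℝ), D.Nonempty → D'.val = D.val.map φ →
    (∀ x ∈ D, dist x (φ x) ≤ d) → dist (B D) (B D') ≤ d) ∧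
  ∀ (D E : Finset X) (a : ℝ), D.Nonempty → D ⊆ E → (∀ p ∈ E, ∀ q ∈ E, dist p q ≤ a * E.card) →
    dist (B D) (B E) ≤ 4 * a * (E.card - D.card)

theorem exists_ctr [Nonempty X] (hσ : IsConical σ) (hc : HullsComplete σ) : ∃ B, IsCtr σ B := by
  obtain ⟨B, h1, h2⟩ := exists_bar hσ hc
  have rad : ∀ (D : Finset X) (z : X) (r : ℝ), D.Nonempty → (∀ x ∈ D, dist x z ≤ r) →
      dist (B D.val) z ≤ r := by
    intro D z r hD hr
    have h0 : (0 : ℝ) < D.val.card := by exact_mod_cast hD.card_pos
    exact le_of_mul_le_mul_left (((h1 _).sd_le hσ rfl z).trans (sum_le_of hr)) h0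
  have add : ∀ (D : Multiset X) (r : ℝ), 0 < D.card → ∀ R : Multiset X,
      (∀ p ∈ R + D, ∀ q ∈ R + D, dist p q ≤ r) →
        ((D.card : ℝ) + 1) * dist (B D) (B (R + D)) ≤ 2 * r * R.card := by
    intro D r hD R
    induction R using Multiset.induction_on with
    | empty => simp
    | cons x R ih =>
      intro hr
      rw [Multiset.cons_add] at hr ⊢
      have a := ih fun p hp q hq =>
        hr p (Multiset.mem_cons_of_mem hp) q (Multiset.mem_cons_of_mem hq)
      have c := h2 (R + D) x r (by rw [Multiset.card_add]; omega) hr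
      have d := dist_triangle_right (B D) (B (x ::ₘ (R + D))) (B (R + D))
      have e : (0 : ℝ) ≤ R.card * dist (B (x ::ₘ (R + D))) (B (R + D)) := by positivity
      have f := mul_le_mul_of_nonneg_left d (by positivity : (0 : ℝ) ≤ D.card + 1)
      rw [Multiset.card_add] at c
      rw [Multiset.card_cons]
      push_cast at c ⊢
      nlinarith
  refine ⟨fun D => B D.val, fun K hK D hD hm => (h1 _).1 K hK _ rfl hD.card_pos hm, rad,
    fun D D' φ d hD e hd => ?_, fun D E a hD hE hr => ?_⟩
  · have h0 : (0 : ℝ) < D.val.card := by exact_mod_cast hD.card_pos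
    have a := (h1 _).2 (D.val.map fun x => (x, φ x)) (Multiset.card_map _ _)
    simp only [Multiset.map_map, Function.comp_def, Multiset.map_id', pd] at a
    dsimp only
    rw [e]
    exact le_of_mul_le_mul_left (a.trans (sum_le_of hd)) h0
  · obtain ⟨R, hR⟩ := Multiset.le_iff_exists_add.1 (Finset.val_le_iff.2 hE)
    rw [add_comm] at hR
    have a1 := add D.val (a * E.card) hD.card_pos R (by rw [← hR]; exact hr)
    have a2 : dist (B D.val) (B E.val) ≤ a * E.card := by
      rw [dist_comm]
      refine rad E _ _ (hD.mono hE) fun y hy => ?_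
      rw [dist_comm]
      exact rad D _ _ hD fun x hx => hr x (hE hx) y hy
    have a3 : (E.card : ℝ) = R.card + D.card := by
      rw [Finset.card_def, hR, Multiset.card_add]
      push_cast
      rfl
    have h0 : (0 : ℝ) < D.card := by exact_mod_cast hD.card_pos
    have h3 : (0 : ℝ) ≤ R.card := by positivity
    have h4 : 0 ≤ a := by
      by_contra c
      nlinarith [dist_nonneg (x := B D.val) (y := B E.val), not_le.1 c]
    rw [← hR, ← Finset.card_def] at a1
    dsimp only
    rw [a3] at a1 a2 ⊢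
    rcases le_total (R.card : ℝ) D.card with c | c
    · refine le_of_mul_le_mul_left (a1.trans ?_) (by positivity)
      have := mul_nonneg h4 h3
      nlinarith
    · nlinarith

end Pool.Agent.Work.MP_dc63d3_gt
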