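import Pool.Agent.Results.MP_dc63d3_gt.Bicombing

/-!
Checks of the hypotheses: real normed spaces (complete or not) with straight segments, and
complete spaces.
-/

set_option autoImplicit false

namespace Pool.Agent.Work.MP_dc63d3_gt

lemma hullsComplete_of_complete {X : Type} [MetricSpace X] [CompleteSpace X]
    (σ : X → X → ℝ → X) : HullsComplete σ :=
  fun _ => ⟨Set.univ, isComplete_univ, Set.subset_univ _, fun _ _ _ _ _ _ => trivial⟩

variable {X : Type} [NormedAddCommGroup X] [NormedSpace ℝ X]

lemma isConical_line : IsConical fun (x y : X) (t : ℝ) => AffineMap.lineMap x y t := by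
  refine ⟨fun x y => by simp, fun x y s _ t _ => ?_, fun x y x' y' t ht => ?_⟩
  · rw [dist_lineMap_lineMap, Real.dist_eq]
  · have e : AffineMap.lineMap x y t - AffineMap.lineMap x' y' t =
        (1 - t) • (x - x') + t • (y - y') := by
      simp only [AffineMap.lineMap_apply_module]
      module
    rw [dist_eq_norm, e, dist_eq_norm, dist_eq_norm]
    refine (norm_add_le _ _).trans (le_of_eq ?_)
    rw [norm_smul, norm_smul, Real.norm_of_nonneg ht.1, Real.norm_of_nonneg (sub_nonneg.2 ht.2)]

lemma hullsComplete_line : HullsComplete fun (x y : X) (t : ℝ) => AffineMap.lineMap x y t :=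
  fun s => ⟨convexHull ℝ (s : Set X), (s.finite_toSet.isCompact_convexHull (𝕜 := ℝ)).isComplete,
    subset_convexHull ℝ _, fun _ hx _ hy _ ht => (convex_convexHull ℝ _).lineMap_mem hx hy ht⟩

/-- The earlier statement for real normed spaces is a special case. -/
theorem normed_case (X : Type) [NormedAddCommGroup X] [NormedSpace ℝ X] (n : ℕ) (hn : 2 ≤ n) :
    (∃ r : Finset X → Finset X, IsLipRetr n (170 * n) r) ∧
      (2 ≤ Module.rank ℝ X →
        ∀ (L : ℝ) (r : Finset X → Finset X), IsLipRetr n L r → (n : ℝ) / 100 ≤ L) :=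
  (Pool.Agent.Results.MP_dc63d3_gt.Bicombing.result X _ isConical_line hullsComplete_line n hn).imp
    id fun h hX => h (rank_pos_iff_nontrivial.1 (lt_of_lt_of_le (by norm_num) hX))

end Pool.Agent.Work.MP_dc63d3_gt
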