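import Pool.Agent.Work.MP_dc63d3_gt.Upper
import Pool.Agent.Work.MP_dc63d3_gt.B.Avg

/-!
A retraction with Lipschitz constant linear in `n` in a space with a conical geodesic bicombing:
every point moves to the average, over the scales between the least distance and twice the least
distance, of the centre of its single linkage cluster.
-/

set_option autoImplicit false

noncomputable section

namespace Pool.Agent.Work.MP_dc63d3_gt

variable {X : Type} [MetricSpace X] {σ : X → X → ℝ → X} {B : Finset X → X}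

lemma Cl_eq' {s : Finset X} {a : ℝ} {x z : X} (hz : z ∈ Cl s a x) : Cl s a x = Cl s a z := by
  have h := (mem_Cl.1 hz).2
  have h' : Relation.ReflTransGen (fun p q => p ∈ s ∧ q ∈ s ∧ dist p q ≤ a) z x := by
    clear hz
    induction h with
    | refl => exact Relation.ReflTransGen.refl
    | tail _ k ih => exact ih.head ⟨k.2.1, k.1, by rw [dist_comm]; exact k.2.2⟩
  ext y
  rw [mem_Cl, mem_Cl]
  exact and_congr_right fun _ => ⟨fun k => h'.trans k, fun k => h.trans k⟩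

lemma Cl_diam {s : Finset X} {a : ℝ} (ha : 0 ≤ a) (x : X) :
    ∀ p ∈ Cl s a x, ∀ q ∈ Cl s a x, dist p q ≤ a * (Cl s a x).card := by
  intro p hp q hq
  rw [Cl_eq' hq] at hp ⊢
  exact Cl_rad ha hp

lemma tame_Cl (hc : HullsComplete σ) (hB : IsCtr σ B) {s : Finset X} {δ : ℝ} (hδ : 0 ≤ δ) {x : X}
    (hx : x ∈ s) : Tame σ fun t => B (Cl s (t * δ) x) := by
  obtain ⟨K, hK, hm⟩ := hc.cvx s.val
  have m := Cl_mono s x hδ
  refine ⟨⟨K, hK, fun t _ => hB.1 K hK _ ⟨x, self_mem_Cl _ hx⟩ fun y hy =>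
    hm y (Cl_subset _ _ _ hy)⟩, fun t => 8 * δ * (Cl s (t * δ) x).card, 8 * δ * s.card,
    fun t => by positivity, fun t => mul_le_mul_of_nonneg_left
      (Nat.cast_le.2 (Finset.card_le_card (Cl_subset _ _ _))) (by positivity),
    fun t ht t' ht' h => ?_⟩
  have a := hB.2.2.2 _ _ (t' * δ) ⟨x, self_mem_Cl _ hx⟩ (m h)
    (Cl_diam (mul_nonneg (by linarith [ht'.1]) hδ) x)
  have b : ((Cl s (t * δ) x).card : ℝ) ≤ (Cl s (t' * δ) x).card := card_mono m h
  have c := mul_nonneg (mul_nonneg hδ (sub_nonneg.2 ht'.2)) (sub_nonneg.2 b)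
  dsimp only at a ⊢
  nlinarith

section

variable [Nonempty X]

/-- The new position of the point `x`. -/
def ctrB (σ : X → X → ℝ → X) (B : Finset X → X) (s : Finset X) (δ : ℝ) (x : X) : X :=
  mean σ fun t => B (Cl s (t * δ) x)

lemma ctrB_dist (hσ : IsConical σ) (hc : HullsComplete σ) (hB : IsCtr σ B) {s : Finset X} {δ : ℝ}
    (hδ : 0 ≤ δ) {x : X} (hx : x ∈ s) : dist (ctrB σ B s δ x) x ≤ 2 * δ * s.card := by
  refine mean_rad hσ (tame_Cl hc hB hδ hx) fun t ht =>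
    hB.2.1 _ _ _ ⟨x, self_mem_Cl _ hx⟩ fun y hy => ?_
  refine (Cl_rad (mul_nonneg (by linarith [ht.1]) hδ) hy).trans (mul_le_mul
    (mul_le_mul_of_nonneg_right ht.2 hδ) ?_ (Nat.cast_nonneg _) (by positivity))
  exact Nat.cast_le.2 (Finset.card_le_card (Cl_subset _ _ _))

lemma ctrB_eq (hσ : IsConical σ) {s : Finset X} {δ : ℝ} (hδ : 0 ≤ δ) {x x' : X} (hx : x ∈ s)
    (hx' : x' ∈ s) (h : dist x x' ≤ δ) : ctrB σ B s δ x = ctrB σ B s δ x' :=
  mean_congr hσ fun t ht => by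
    rw [Cl_eq hx hx' (h.trans (le_mul_of_one_le_left hδ ht.1))]

lemma ctrB_stab (hσ : IsConical σ) (hc : HullsComplete σ) (hB : IsCtr σ B) {s s' : Finset X}
    {δ δ' d : ℝ} (hd : 0 ≤ d) (h4 : 20 * d < δ) (h1 : δ ≤ δ' + 2 * d)
    (h2 : δ' ≤ δ + 2 * d) {φ ψ : X → X} (h : ∀ p ∈ s, φ p ∈ s' ∧ dist p (φ p) ≤ d ∧ ψ (φ p) = p)
    (h' : ∀ q ∈ s', ψ q ∈ s ∧ φ (ψ q) = q) {x : X} (hx : x ∈ s) :
    dist (ctrB σ B s δ x) (ctrB σ B s' δ' (φ x)) ≤ d + 166 * d * s.card := by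
  classical
  have hδ : 0 < δ := by linarith
  have hδ' : 0 ≤ δ' := by linarith
  obtain ⟨η, hη⟩ : ∃ η, η = 6 * d / δ := ⟨_, rfl⟩
  have e1 : η * δ = 6 * d := by rw [hη, div_mul_cancel₀ _ hδ.ne']
  have η0 : 0 ≤ η := by rw [hη]; positivity
  have m := Cl_mono s x hδ.le
  have a := mean_dist hσ (tame_Cl hc hB hδ.le hx) (tame_Cl hc hB hδ' (h x hx).1) (card_mono m)
    (n := s.card) (c := 46 / 5 * δ) (d := d) η0 (by positivity) (fun _ => Nat.cast_nonneg _)
    (fun t => Nat.cast_le.2 (Finset.card_le_card (Cl_subset _ _ _))) (fun t ht => ?_)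
  · refine a.trans ?_
    have e2 : 3 * (46 / 5 * δ) * η * s.card = 828 / 5 * (d * s.card) := by
      linear_combination (138 / 5 * s.card : ℝ) * e1
    have : 0 ≤ d * s.card := by positivity
    linarith
  obtain ⟨D, hD⟩ : ∃ D, D = s.filter (fun y => φ y ∈ Cl s' (t * δ') (φ x)) := ⟨_, rfl⟩
  have mD : ∀ y, y ∈ D ↔ y ∈ s ∧ φ y ∈ Cl s' (t * δ') (φ x) := fun y => by
    rw [hD, Finset.mem_filter]
  have ne : D.Nonempty := ⟨x, (mD x).2 ⟨hx, self_mem_Cl _ (h x hx).1⟩⟩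
  have c1 : (Cl s' (t * δ') (φ x)).val = D.val.map φ := by
    rw [← Finset.image_val_of_injOn (fun p hp q hq e => by
      rw [← (h p ((mD p).1 hp).1).2.2, e, (h q ((mD q).1 hq).1).2.2])]
    congr 1
    ext q
    rw [Finset.mem_image]
    exact ⟨fun hq => ⟨ψ q, (mD _).2 ⟨(h' q (Cl_subset _ _ _ hq)).1,
      by rw [(h' q (Cl_subset _ _ _ hq)).2]; exact hq⟩, (h' q (Cl_subset _ _ _ hq)).2⟩,
      fun ⟨p, hp, e⟩ => e ▸ ((mD p).1 hp).2⟩
  have s1 : Cl s ((t - η) * δ) x ⊆ D := by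
    intro y hy
    refine (mD y).2 ⟨Cl_subset _ _ _ hy, Cl_map (fun p hp => (h p hp).1) ?_ hy⟩
    intro p hp q hq k
    have c := dist_triangle4 (φ p) p q (φ q)
    rw [dist_comm (φ p) p] at c
    nlinarith [(h p hp).2.1, (h q hq).2.1, ht.1, ht.2]
  have s2 : D ⊆ Cl s ((t + η) * δ) x := by
    intro y hy
    obtain ⟨k1, k2⟩ := (mD y).1 hy
    have := Cl_map (s' := s) (b := (t + η) * δ) (fun q hq => (h' q hq).1) ?_ k2
    · rwa [(h y k1).2.2, (h x hx).2.2] at this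
    · intro p hp q hq k
      have c := dist_triangle4 (ψ p) p q (ψ q)
      have c3 := (h _ (h' p hp).1).2.1
      have c4 := (h _ (h' q hq).1).2.1
      rw [(h' p hp).2] at c3
      rw [(h' q hq).2, dist_comm] at c4
      nlinarith [ht.1, ht.2]
  have p0 : 0 ≤ (t + η) * δ := mul_nonneg (by linarith [ht.1]) hδ.le
  have p1 : (t + η) * δ ≤ 23 / 10 * δ := by nlinarith [ht.2]
  have s3 : Cl s (t * δ) x ⊆ Cl s ((t + η) * δ) x := m (by linarith : t ≤ t + η)
  have b1 := hB.2.2.2 _ _ _ ⟨x, self_mem_Cl _ hx⟩ s3 (Cl_diam p0 x)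
  have b2 := hB.2.2.2 _ _ _ ne s2 (Cl_diam p0 x)
  have b3 := hB.2.2.1 _ _ φ d ne c1 fun y hy => (h y ((mD y).1 hy).1).2.1
  have n1 : ((Cl s (t * δ) x).card : ℝ) ≤ (Cl s ((t + η) * δ) x).card :=
    Nat.cast_le.2 (Finset.card_le_card s3)
  have n2 : (D.card : ℝ) ≤ (Cl s ((t + η) * δ) x).card := Nat.cast_le.2 (Finset.card_le_card s2)
  have n3 : ((Cl s ((t - η) * δ) x).card : ℝ) ≤ D.card := Nat.cast_le.2 (Finset.card_le_card s1)
  have b4 := dist_triangle4 (B (Cl s (t * δ) x)) (B (Cl s ((t + η) * δ) x)) (B D)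
    (B (Cl s' (t * δ') (φ x)))
  rw [dist_comm _ (B D)] at b4
  have q1 := mul_le_mul_of_nonneg_right p1 (sub_nonneg.2 n1)
  have q2 := mul_le_mul_of_nonneg_right p1 (sub_nonneg.2 n2)
  have q3 := mul_le_mul_of_nonneg_left n3 hδ.le
  nlinarith

open Classical in
/-- The retraction. -/
def retrB (σ : X → X → ℝ → X) (B : Finset X → X) (n : ℕ) (s : Finset X) : Finset X :=
  if s.card = n then s.image (ctrB σ B s (s : Set X).infsep) else s

end

open Classical in
/-- The least distance of an `n` point set, and zero for other sets. -/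
def sepB (n : ℕ) (s : Finset X) : ℝ := if s.card = n then (s : Set X).infsep else 0

lemma near_retrB [Nonempty X] (hσ : IsConical σ) (hc : HullsComplete σ) (hB : IsCtr σ B) (n : ℕ)
    (s : Finset X) : Near (retrB σ B n s) s (2 * sepB n s * n) := by
  classical
  unfold retrB sepB
  split_ifs with h
  · rw [← h]
    refine ⟨fun x hx => ?_, fun x hx => ⟨_, Finset.mem_image_of_mem _ hx, ?_⟩⟩
    · obtain ⟨y, hy, rfl⟩ := Finset.mem_image.1 hx
      exact ⟨y, hy, ctrB_dist hσ hc hB Set.infsep_nonneg hy⟩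
    · rw [dist_comm]
      exact ctrB_dist hσ hc hB Set.infsep_nonneg hx
  · exact near_refl s (by simp)

lemma match_of_sepB {n : ℕ} (hn : 2 ≤ n) {s t : Finset X} {d : ℝ} (hd : 0 ≤ d) (h : Near s t d)
    (ht : t.card ≤ n) (k : 2 * d < sepB n s) : s.card = n ∧ t.card = n ∧
      sepB n s ≤ sepB n t + 2 * d ∧ sepB n t ≤ sepB n s + 2 * d ∧ ∃ φ ψ : X → X,
      (∀ p ∈ s, φ p ∈ t ∧ dist p (φ p) ≤ d ∧ ψ (φ p) = p) ∧ ∀ q ∈ t, ψ q ∈ s ∧ φ (ψ q) = q := by
  have hs : s.card = n := by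
    by_contra c
    rw [sepB, if_neg c] at k
    linarith
  rw [sepB, if_pos hs] at k
  obtain ⟨φ, ψ, h1, h2⟩ := exists_match h k (hs ▸ ht)
  have ht' : t.card = n := hs ▸ Finset.card_nbij' ψ φ (fun q hq => (h2 q hq).1)
    (fun p hp => (h1 p hp).1) (fun q hq => (h2 q hq).2) (fun p hp => (h1 p hp).2.2)
  rw [sepB, sepB, if_pos hs, if_pos ht']
  refine ⟨hs, ht', infsep_le_of_match (Finset.one_lt_card_iff_nontrivial.1 (by omega))
    (φ := ψ) (ψ := φ) (fun q hq => ⟨(h2 q hq).1, ?_, (h2 q hq).2⟩),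
    infsep_le_of_match (Finset.one_lt_card_iff_nontrivial.1 (by omega)) h1, φ, ψ, h1, h2⟩
  have := (h1 _ (h2 q hq).1).2.1
  rwa [(h2 q hq).2, dist_comm] at this

theorem upper_geo (hσ : IsConical σ) (hc : HullsComplete σ) {n : ℕ} (hn : 2 ≤ n) :
    ∃ r : Finset X → Finset X, IsLipRetr n (170 * n) r := by
  classical
  have hn' : (2 : ℝ) ≤ n := by exact_mod_cast hn
  rcases isEmpty_or_nonempty X with hX | hX
  · exact ⟨id, fun s hs => isEmptyElim hs.choose, fun _ _ _ => rfl,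
      fun s _ hs => isEmptyElim hs.choose⟩
  obtain ⟨B, hB⟩ := exists_ctr hσ hc
  refine ⟨retrB σ B n, isLipRetr_of_near (by positivity) (fun s hs hc => ?_)
    (fun s _ hc => if_neg (by omega)) (fun s t d _ hs _ ht hd h => ?_)⟩
  · unfold retrB
    split_ifs with h
    · refine ⟨by convert hs.image _, ?_⟩
      obtain ⟨p, hp, q, hq, k, e⟩ := s.finite_toSet.infsep_exists_of_nontrivial
        (Finset.one_lt_card_iff_nontrivial.1 (by omega))
      have a : (s.image (ctrB σ B s (s : Set X).infsep)).card ≠ s.card := fun c =>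
        k (Finset.injOn_of_card_image_eq c hp hq (ctrB_eq hσ Set.infsep_nonneg hp hq e.ge))
      have b : (s.image (ctrB σ B s (s : Set X).infsep)).card ≤ s.card := Finset.card_image_le
      have c : (s.image (ctrB σ B s (s : Set X).infsep)).card ≤ n - 1 := by omega
      convert c
    · exact ⟨hs, by omega⟩
  · by_cases k : 20 * d < sepB n s
    · obtain ⟨a1, a2, a3, a4, φ, ψ, h1, h2⟩ := match_of_sepB hn hd h ht (by linarith)
      rw [sepB, if_pos a1] at k
      rw [sepB, sepB, if_pos a1, if_pos a2] at a3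
      rw [sepB, sepB, if_pos a2, if_pos a1] at a4
      have b : ∀ x ∈ s, dist (ctrB σ B s (s : Set X).infsep x)
          (ctrB σ B t (t : Set X).infsep (φ x)) ≤ 170 * n * d := fun x hx =>
        (ctrB_stab hσ hc hB hd k a3 a4 h1 h2 hx).trans (by rw [a1]; nlinarith)
      rw [retrB, retrB, if_pos a1, if_pos a2]
      refine ⟨fun x' hx' => ?_, fun y' hy' => ?_⟩
      · obtain ⟨x, hx, rfl⟩ := Finset.mem_image.1 hx'
        exact ⟨_, Finset.mem_image_of_mem _ (h1 x hx).1, b x hx⟩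
      · obtain ⟨y, hy, rfl⟩ := Finset.mem_image.1 hy'
        have := b _ (h2 y hy).1
        rw [(h2 y hy).2, dist_comm] at this
        exact ⟨_, Finset.mem_image_of_mem _ (h2 y hy).1, this⟩
    · have a : sepB n t ≤ 22 * d := by
        by_contra c
        have := (match_of_sepB hn hd h.symm hs (by linarith)).2.2.1
        linarith
      refine (((near_retrB hσ hc hB n s).trans h).trans (near_retrB hσ hc hB n t).symm).mono ?_
      nlinarith [not_lt.1 k]

end Pool.Agent.Work.MP_dc63d3_gt
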